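import Pool.Agent.Lib.AM.SpecD
import Pool.Agent.Lib.AM.SpecE2

set_option linter.all false

/-!
# AM, module D/Brg: the geometric part in the form needed by the composition
-/

namespace Pool.Agent.AM

open Finset Pool.Agent.MP_a4c1f4_lc Pool.Agent.MP_a4c1f4_lc.Dbl Pool.Agent.MP_a4c1f4_lc.Euc

/-- the powers of 4 are small on the left -/
private theorem Brg_small (Lam ε : ℝ) (hL : 0 ≤ Lam) (hε : 0 < ε) :
    ∃ c0 : ℤ, ∀ c ≤ c0, (4 : ℝ) ^ c * Lam ≤ ε := by
  have hq : 0 < ε / (Lam + 1) := div_pos hε (by linarith)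
  obtain ⟨k, hk⟩ := exists_pow_lt_of_lt_one hq (by norm_num : (1 / 4 : ℝ) < 1)
  refine ⟨-(k : ℤ), fun c hc => ?_⟩
  have h1 : (4 : ℝ) ^ c ≤ (4 : ℝ) ^ (-(k : ℤ)) := zpow_le_zpow_right₀ (by norm_num) hc
  have h2 : (4 : ℝ) ^ (-(k : ℤ)) = (1 / 4 : ℝ) ^ k := by
    rw [zpow_neg, zpow_natCast, one_div, inv_pow]
  rw [h2] at h1
  have h3 : (4 : ℝ) ^ c ≤ ε / (Lam + 1) := h1.trans hk.le
  have h4 : (0 : ℝ) < (4 : ℝ) ^ c := zpow_pos (by norm_num) c
  have h5 : (4 : ℝ) ^ c * (Lam + 1) ≤ ε := by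
    rwa [le_div_iff₀ (by linarith)] at h3
  nlinarith

theorem brgP (h : G.GeomProp) : GeomProp := by
  obtain ⟨C0, hC0, H⟩ := h 20000 (by norm_num)
  refine ⟨C0, hC0, ?_⟩
  intro X _ _ _ D hD
  obtain ⟨n, L, Lam, beta, K, bk, hL, hLam, hbeta, hK, hn, hnC, hh, hR, hrr, hsr, hmu, hdat, hOK,
    hMb, hpay, hsum, hzero⟩ := H X D hD
  have hm1 : (1 : ℝ) ≤ (Fintype.card X : ℝ) := by
    exact_mod_cast Fintype.card_pos (α := X)
  have hlog : 0 ≤ Real.log (Fintype.card X : ℝ) := Real.log_nonneg hm1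
  have hL3 : 3 ≤ L := by rw [hL]; linarith
  have hLam0 : 0 ≤ Lam := by rw [hLam]; linarith
  have hLL : LL X = L := by rw [hL]; rfl
  have hW0 : ∀ N c x o, 0 ≤ (bk N c).W x o := by
    intro N c x o
    obtain ⟨N', hN'⟩ := exists_nat_ge (Lam ^ 2)
    have hok : (bk N' c).OK Lam N' D (fun x => [x]) := by
      refine hOK N' c (fun x => [x]) hN' ?_
      intro x y hxy
      have hxy' : x = y := by simpa using hxy
      rw [hxy', hD.self]
      have h4 : (0 : ℝ) < (4 : ℝ) ^ (c + (n : ℤ)) := zpow_pos (by norm_num) _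
      exact mul_nonneg (by linarith) h4.le
    unfold Blk.W
    refine Finset.sum_nonneg fun i hi => ?_
    have hi' : i ≤ n := by
      have := Finset.mem_range.1 hi
      rw [hh N c] at this
      omega
    rw [(hdat N N' c).1]
    exact (hok.pm i (by rw [hh N' c]; exact hi')).nonneg x o
  refine ⟨n, Lam, bk, ?_⟩
  refine
    { n1 := hn
      Lam0 := hLam0
      h := hh
      dat := ?_
      rr := ?_
      OK := ?_
      Mb := ?_
      R := ?_
      sum := ?_
      sr := ?_ }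
  · intro N c
    refine ⟨(hdat N 0 c).1, (hdat N 0 c).2, ?_⟩
    rw [hR N c, hR 0 c]
  · intro N c i _
    exact hrr N c i
  · intro N c cl hN hcl
    exact hOK N c cl hN hcl
  · intro N c
    have h1 := hMb N c
    unfold Blk.Mb
    rw [hh N c, hLL]
    exact h1
  · intro N c
    exact hpay N c
  · intro N S x o
    rw [hLL]
    refine le_trans (Finset.sum_le_sum fun c _ => ?_) (hsum N x o S)
    refine mul_le_mul_of_nonneg_right (ind_mono fun hx => ?_) (hW0 N c x o)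
    have h4 : (0 : ℝ) < (4 : ℝ) ^ (c + (n : ℤ)) := zpow_pos (by norm_num) _
    have h5 : 0 ≤ (Lam + 1) * (4 : ℝ) ^ (c + (n : ℤ)) := mul_nonneg (by linarith) h4.le
    linarith
  · intro ε hε
    obtain ⟨c0, hc0⟩ := Brg_small Lam ε hLam0 hε
    refine ⟨c0, fun N c hc => ?_⟩
    have h1 := hsr N c 0
    have h2 : c + ((0 : ℕ) : ℤ) = c := by simp
    rw [h2] at h1
    rw [h1]
    exact hc0 c hc

end Pool.Agent.AM
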