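import Pool.Agent.Lib.AM.SpecD

set_option linter.all false

/-!
# AM, (D4): mixture over the offsets
-/

namespace Pool.Agent.AM

open Finset Pool.Agent.MP_a4c1f4_lc Pool.Agent.MP_a4c1f4_lc.Dbl Pool.Agent.MP_a4c1f4_lc.Euc

/-- The tokens of an offline assignment. -/
private def Cmp_tok {K : Type} (l τ : List K) : List (K × Option K) :=
  List.zipWith (fun x o => (x, some o)) l τ

private theorem Cmp_fst {K : Type} : ∀ (l τ : List K), τ.length = l.length →
    (Cmp_tok l τ).map Prod.fst = l := by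
  intro l
  induction l with
  | nil => intro τ _; simp [Cmp_tok]
  | cons x l ih =>
    intro τ h
    cases τ with
    | nil => simp at h
    | cons t τ =>
      have h' : τ.length = l.length := by simpa using h
      have := ih τ h'
      unfold Cmp_tok at this ⊢
      simp [this]

private theorem Cmp_snd {K : Type} : ∀ (l τ : List K), τ.length = l.length →
    (Cmp_tok l τ).filterMap Prod.snd = τ := by
  intro l
  induction l with
  | nil =>
    intro τ h
    have : τ = [] := List.length_eq_zero_iff.1 (by simpa using h)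
    subst this
    simp [Cmp_tok]
  | cons x l ih =>
    intro τ h
    cases τ with
    | nil => simp at h
    | cons t τ =>
      have h' : τ.length = l.length := by simpa using h
      have := ih τ h'
      unfold Cmp_tok at this ⊢
      simp [this]

private theorem Cmp_gs_nil {X K : Type} (sg : K → X) (D : X → X → ℝ) (ρ : ℝ) (W : X → X → ℝ) :
    gs sg D ρ W [] = 0 := by
  simp [gs]

private theorem Cmp_gs_cons {X K : Type} (sg : K → X) (D : X → X → ℝ) (ρ : ℝ) (W : X → X → ℝ)
    (x o : K) (tl : List (K × Option K)) :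
    gs sg D ρ W ((x, some o) :: tl) =
      ind (D (sg x) (sg o) ≤ ρ) * W (sg x) (sg o) + gs sg D ρ W tl := by
  simp [gs]

private theorem Cmp_tok_cons {K : Type} (x : K) (l : List K) (t : K) (τ : List K) :
    Cmp_tok (x :: l) (t :: τ) = (x, some t) :: Cmp_tok l τ := rfl

private theorem Cmp_acost_cons {T : Type} (c : T → T → ℝ) (x : T) (l : List T) (t : T)
    (τ : List T) : acost c (x :: l) (t :: τ) = c x t + acost c l τ := by
  simp [acost]

private theorem Cmp_PiT {X K : Type} [DecidableEq X] (sg : K → X) (D : X → X → ℝ) (ρ : ℝ)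
    (W : X → X → ℝ) (R : ℝ) (hW : ∀ x y, 0 ≤ W x y) (hD : ∀ x y, D x y ≤ ρ) :
    ∀ (l τ : List K), τ.length = l.length →
      PiT sg W R (fun _ => 1) (Cmp_tok l τ) ≤ 9 * gs sg D ρ W (Cmp_tok l τ) := by
  intro l
  induction l with
  | nil => intro τ _; simp [Cmp_tok, PiT, gs]
  | cons x l ih =>
    intro τ h
    cases τ with
    | nil => simp at h
    | cons t τ =>
      have h' : τ.length = l.length := by simpa using h
      have h1 := ih τ h'
      rw [Cmp_tok_cons, Cmp_gs_cons, ind_true (hD _ _)]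
      have e : PiT sg W R (fun _ => 1) ((x, some t) :: Cmp_tok l τ) =
          3 * W (sg x) (sg t) + PiT sg W R (fun _ => 1) (Cmp_tok l τ) := by
        simp [PiT, rc]
      rw [e]
      have h2 := hW (sg x) (sg t)
      linarith

private theorem Cmp_inj {n : ℕ} (c0 : ℤ) (J : ℕ) :
    Set.InjOn (fun p : Fin n × ℕ => c0 + ((p.1 : ℕ) : ℤ) + (n : ℤ) * ((p.2 : ℕ) : ℤ))
      ((univ ×ˢ range (J + 1) : Finset (Fin n × ℕ)) : Set (Fin n × ℕ)) := by
  rintro ⟨r, j⟩ _ ⟨r', j'⟩ _ h
  simp only at h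
  have h1 : ((r : ℕ) : ℤ) + (n : ℤ) * (j : ℤ) = ((r' : ℕ) : ℤ) + (n : ℤ) * (j' : ℤ) := by
    linarith
  have h2 : (r : ℕ) + n * j = (r' : ℕ) + n * j' := by exact_mod_cast h1
  have hn : 0 < n := lt_of_le_of_lt (Nat.zero_le _) r.2
  have h3 : ((r : ℕ) + n * j) % n = r := by
    rw [Nat.add_mul_mod_self_left, Nat.mod_eq_of_lt r.2]
  have h4 : ((r' : ℕ) + n * j') % n = r' := by
    rw [Nat.add_mul_mod_self_left, Nat.mod_eq_of_lt r'.2]
  have h5 : (r : ℕ) = r' := by rw [← h3, ← h4, h2]
  have h6 : n * j = n * j' := by omega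
  have h7 : j = j' := Nat.eq_of_mul_eq_mul_left hn h6
  exact Prod.ext (Fin.ext h5) h7

private theorem Cmp_sum {X K : Type} [Fintype X] [DecidableEq X] [Nonempty X] [Fintype K]
    (sg : K → X) (D : X → X → ℝ) (C0 : ℝ) (n : ℕ) (Lam : ℝ) (bk : ℕ → ℤ → Blk X)
    (hG : Geo X D C0 n Lam bk) (N : ℕ) (c0 : ℤ) (J : ℕ) :
    ∀ (l τ : List K), τ.length = l.length →
      ∑ r : Fin n, ∑ j ∈ range (J + 1),
        gs sg D ((Lam + 1) * (bk N (c0 + ((r : ℕ) : ℤ) + (n : ℤ) * (j : ℤ))).rr
            (bk N (c0 + ((r : ℕ) : ℤ) + (n : ℤ) * (j : ℤ))).h)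
          (bk N (c0 + ((r : ℕ) : ℤ) + (n : ℤ) * (j : ℤ))).W (Cmp_tok l τ) ≤
      C0 * n * LL X * (1 + Real.log (LL X)) ^ 2 *
        acost (fun s t => D (sg s) (sg t)) l τ := by
  intro l
  induction l with
  | nil =>
    intro τ _
    have e : Cmp_tok ([] : List K) τ = [] := by simp [Cmp_tok]
    simp [e, Cmp_gs_nil, acost]
  | cons x l ih =>
    intro τ h
    cases τ with
    | nil => simp at h
    | cons t τ =>
      have h' : τ.length = l.length := by simpa using h
      have h1 := ih τ h'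
      rw [Cmp_tok_cons, Cmp_acost_cons]
      simp only [Cmp_gs_cons, Finset.sum_add_distrib, mul_add]
      refine add_le_add ?_ h1
      have h2 := hG.sum N ((univ ×ˢ range (J + 1) : Finset (Fin n × ℕ)).image
        (fun p : Fin n × ℕ => c0 + ((p.1 : ℕ) : ℤ) + (n : ℤ) * ((p.2 : ℕ) : ℤ)))
        (sg x) (sg t)
      rw [Finset.sum_image (Cmp_inj c0 J), Finset.sum_product] at h2
      refine le_trans (le_of_eq ?_) h2
      refine Finset.sum_congr rfl fun r _ => Finset.sum_congr rfl fun j _ => ?_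
      rw [hG.h, hG.rr N _ n le_rfl]

theorem cmpP (hR : RecProp) (hP : PickProp) : CmpProp := by
  intro X K _ _ _ _ _ _ sg D C0 n Lam bk hpm hC0 hG
  obtain ⟨N, δ, c0, J, hdiam, hch⟩ := hP X K D C0 n Lam bk hpm hC0 hG
  have hLam0 := hG.Lam0
  have hn1 := hG.n1
  have hnR : (0 : ℝ) < (n : ℝ) := by exact_mod_cast hn1
  -- radius of the top block
  have htop : ∀ r : Fin n, ∀ x y, D x y ≤
      (bk N (c0 + ((r : ℕ) : ℤ) + (n : ℤ) * (J : ℤ))).rr
        (bk N (c0 + ((r : ℕ) : ℤ) + (n : ℤ) * (J : ℤ))).h := by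
    intro r x y
    rw [hG.h, hG.rr N _ n le_rfl]
    refine le_trans (hdiam x y) ?_
    refine zpow_le_zpow_right₀ (by norm_num) ?_
    have : (0 : ℤ) ≤ ((r : ℕ) : ℤ) := by positivity
    linarith
  have htop' : ∀ r : Fin n, ∀ x y, D x y ≤ (Lam + 1) *
      (bk N (c0 + ((r : ℕ) : ℤ) + (n : ℤ) * (J : ℤ))).rr
        (bk N (c0 + ((r : ℕ) : ℤ) + (n : ℤ) * (J : ℤ))).h := by
    intro r x y
    have h1 := htop r x y
    have h2 : 0 ≤ D x y := hpm.nonneg x y
    have h3 : 0 ≤ (bk N (c0 + ((r : ℕ) : ℤ) + (n : ℤ) * (J : ℤ))).rr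
        (bk N (c0 + ((r : ℕ) : ℤ) + (n : ℤ) * (J : ℤ))).h := le_trans h2 h1
    nlinarith
  have hTh : ∀ r : Fin n, Th D (fun _ : X => ([] : List X)) (fun _ => 1) Lam
      ((bk N (c0 + ((r : ℕ) : ℤ) + (n : ℤ) * (J : ℤ))).rr
        (bk N (c0 + ((r : ℕ) : ℤ) + (n : ℤ) * (J : ℤ))).h) := by
    intro r
    refine ⟨fun _ => le_rfl, fun _ => by linarith, fun _ _ _ => rfl, fun x y _ => ?_⟩
    rw [one_mul]
    exact htop r x y
  have hrec := fun r : Fin n => hR X K sg D Lam N δ (8000 / 3 * C0 * √(LL X))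
    (fun j => bk N (c0 + ((r : ℕ) : ℤ) + (n : ℤ) * (j : ℤ))) J (hch r r.2) hLam0
    (fun _ => []) (fun _ => 1) (hTh r)
  choose Ω fΩ w A hw0 hw1 hmain using hrec
  letI : ∀ r, Fintype (Ω r) := fΩ
  have hInvAll : ∀ (tl : List (K × Option K)), (tl.filterMap Prod.snd).Nodup →
      tl.length ≤ Fintype.card K → Inv sg (fun _ : X => ([] : List X)) tl := by
    intro tl h1 h2
    refine ⟨fun _ _ _ _ => rfl, h1, ?_, h2⟩
    intro C
    by_cases hC : C = []
    · subst hC
      have e1 : aC sg (fun _ : X => ([] : List X)) [] = (univ : Finset K) := by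
        ext v
        simp [aC]
      rw [e1, Finset.card_univ]
      refine le_trans (List.length_filter_le _ _) ?_
      rw [List.length_map]
      exact h2
    · have e1 : lC sg (fun _ : X => ([] : List X)) (tl.map Prod.fst) C = [] := by
        unfold lC
        rw [List.filter_eq_nil_iff]
        intro a _
        simp only [decide_eq_true_eq]
        exact fun h => hC h.symm
      rw [e1]
      exact Nat.zero_le _
  have hdiv : ∀ r, ∑ ω : Ω r, w r ω / (n : ℝ) = 1 / (n : ℝ) := by
    intro r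
    rw [← Finset.sum_div, hw1]
  refine ⟨(r : Fin n) × Ω r, inferInstance, fun p => w p.1 p.2 / (n : ℝ),
    fun p => A p.1 p.2, fun p => div_nonneg (hw0 _ _) hnR.le, ?_, ?_, ?_⟩
  · rw [Fintype.sum_sigma]
    simp only [hdiv]
    rw [Finset.sum_const, Finset.card_univ, Fintype.card_fin, nsmul_eq_mul]
    field_simp
  · rintro ⟨r, ω⟩ l hl
    have e0 : (l.map (fun x => (x, (none : Option K)))).map Prod.fst = l := by
      rw [List.map_map]
      exact List.map_id l
    have hI : Inv sg (fun _ : X => ([] : List X))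
        (l.map (fun x => (x, (none : Option K)))) := by
      refine hInvAll _ ?_ (by rw [List.length_map]; exact hl)
      have e1 : (l.map (fun x => (x, (none : Option K)))).filterMap Prod.snd = [] := by
        rw [List.filterMap_eq_nil_iff]
        intro a ha
        obtain ⟨x, _, rfl⟩ := List.mem_map.1 ha
        rfl
      rw [e1]
      exact List.nodup_nil
    have h1 := (hmain r _ hI).1 ω
    rw [e0] at h1
    exact h1
  · intro l τ hl
    have hlen : τ.length = l.length := hl.1
    have hcard : l.length ≤ Fintype.card K := by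
      rw [← hlen]
      exact hl.2.length_le_card
    have hfst := Cmp_fst l τ hlen
    have hI : Inv sg (fun _ : X => ([] : List X)) (Cmp_tok l τ) := by
      refine hInvAll _ ?_ ?_
      · rw [Cmp_snd l τ hlen]
        exact hl.2
      · have : (Cmp_tok l τ).length = l.length := by
          rw [← List.length_map (f := Prod.fst), hfst]
        rw [this]
        exact hcard
    rw [Fintype.sum_sigma]
    have hM : 0 ≤ 8000 / 3 * C0 * √(LL X) := by
      have := Real.sqrt_nonneg (LL X)
      positivity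
    have hr : ∀ r : Fin n, ∑ ω : Ω r, w r ω / (n : ℝ) *
        stp (fun x l => D (sg x) (sg (A r ω x l))) l ≤
        1 / (n : ℝ) * (8000 / 3 * C0 * √(LL X) * (9 * ∑ j ∈ range (J + 1),
          gs sg D ((Lam + 1) * (bk N (c0 + ((r : ℕ) : ℤ) + (n : ℤ) * (j : ℤ))).rr
              (bk N (c0 + ((r : ℕ) : ℤ) + (n : ℤ) * (j : ℤ))).h)
            (bk N (c0 + ((r : ℕ) : ℤ) + (n : ℤ) * (j : ℤ))).W (Cmp_tok l τ))) := by
      intro r
      have h1 := (hmain r (Cmp_tok l τ) hI).2
      rw [hfst] at h1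
      have hOK := (hch r r.2).OK J le_rfl (fun _ => []) (fun x y _ => htop' r x y)
      have hW : ∀ x y, 0 ≤ (bk N (c0 + ((r : ℕ) : ℤ) + (n : ℤ) * (J : ℤ))).W x y := by
        intro x y
        refine Finset.sum_nonneg fun i hi => ?_
        exact (hOK.pm i (Nat.lt_succ_iff.1 (Finset.mem_range.1 hi))).nonneg x y
      have h2 := Cmp_PiT sg D _ _ (bk N (c0 + ((r : ℕ) : ℤ) + (n : ℤ) * (J : ℤ))).R hW
        (htop' r) l τ hlen
      have e1 : ∑ ω : Ω r, w r ω / (n : ℝ) *
          stp (fun x l => D (sg x) (sg (A r ω x l))) l =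
          1 / (n : ℝ) * ∑ ω : Ω r, w r ω *
            stp (fun x l => D (sg x) (sg (A r ω x l))) l := by
        rw [Finset.mul_sum]
        exact Finset.sum_congr rfl fun ω _ => by ring
      rw [e1]
      refine mul_le_mul_of_nonneg_left (le_trans h1 (mul_le_mul_of_nonneg_left ?_ hM))
        (by positivity)
      rw [Finset.sum_range_succ, mul_add]
      linarith
    refine le_trans (Finset.sum_le_sum fun r _ => hr r) ?_
    rw [← Finset.mul_sum, ← Finset.mul_sum, ← Finset.mul_sum]
    have hs := Cmp_sum sg D C0 n Lam bk hG N c0 J l τ hlen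
    calc 1 / (n : ℝ) * (8000 / 3 * C0 * √(LL X) * (9 * ∑ r : Fin n, ∑ j ∈ range (J + 1),
          gs sg D ((Lam + 1) * (bk N (c0 + ((r : ℕ) : ℤ) + (n : ℤ) * (j : ℤ))).rr
              (bk N (c0 + ((r : ℕ) : ℤ) + (n : ℤ) * (j : ℤ))).h)
            (bk N (c0 + ((r : ℕ) : ℤ) + (n : ℤ) * (j : ℤ))).W (Cmp_tok l τ)))
        ≤ 1 / (n : ℝ) * (8000 / 3 * C0 * √(LL X) * (9 *
            (C0 * n * LL X * (1 + Real.log (LL X)) ^ 2 *
              acost (fun s t => D (sg s) (sg t)) l τ))) := by
          refine mul_le_mul_of_nonneg_left (mul_le_mul_of_nonneg_left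
            (mul_le_mul_of_nonneg_left hs (by norm_num)) hM) (by positivity)
      _ = 24000 * C0 ^ 2 * √(LL X) * LL X * (1 + Real.log (LL X)) ^ 2 *
            acost (fun s t => D (sg s) (sg t)) l τ := by
          field_simp
          ring

end Pool.Agent.AM
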