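import Pool.Agent.Lib.AM.SpecD

set_option linter.all false

/-!
# AM, part D: the choice of the parameters (`PickProp`)
-/

namespace Pool.Agent.AM

open Finset Pool.Agent.MP_a4c1f4_lc Pool.Agent.MP_a4c1f4_lc.Dbl Pool.Agent.MP_a4c1f4_lc.Euc

private theorem Pick_gap {X : Type} [Fintype X] (D : X → X → ℝ) (hD : PM D) :
    ∃ δ : ℝ, 0 < δ ∧ ∀ x y, D x y = 0 ∨ δ ≤ D x y := by
  classical
  by_cases h : ((univ : Finset (X × X)).filter (fun p => 0 < D p.1 p.2)).Nonempty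
  · obtain ⟨p, hp, hmin⟩ := exists_min_image _ (fun p : X × X => D p.1 p.2) h
    refine ⟨D p.1 p.2, (mem_filter.1 hp).2, fun x y => ?_⟩
    rcases (hD.nonneg x y).eq_or_lt with h0 | h0
    · exact Or.inl h0.symm
    · exact Or.inr (hmin (x, y) (mem_filter.2 ⟨mem_univ _, h0⟩))
  · refine ⟨1, one_pos, fun x y => ?_⟩
    rcases (hD.nonneg x y).eq_or_lt with h0 | h0
    · exact Or.inl h0.symm
    · exact absurd ⟨(x, y), mem_filter.2 ⟨mem_univ _, h0⟩⟩ h

private theorem Pick_bdd {X : Type} [Fintype X] (D : X → X → ℝ) :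
    ∃ b : ℝ, ∀ x y, D x y ≤ b := by
  obtain ⟨b, hb⟩ := (Set.finite_range (fun p : X × X => D p.1 p.2)).bddAbove
  exact ⟨b, fun x y => hb ⟨(x, y), rfl⟩⟩

private theorem Pick_small (C p : ℝ) (hp : 0 < p) :
    ∀ᶠ N : ℕ in Filter.atTop, C / (N : ℝ) ≤ p := by
  have h := tendsto_const_div_atTop_nhds_zero_nat C
  exact (h.eventually (gt_mem_nhds hp)).mono fun N hN => le_of_lt hN

section
variable {X K : Type} [Fintype X] [DecidableEq X] [Nonempty X] [Fintype K] [DecidableEq K]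
  [Nonempty K]

private theorem Pick_sign {D : X → X → ℝ} {C0 : ℝ} {n : ℕ} {Lam : ℝ} {bk : ℕ → ℤ → Blk X}
    (hG : Geo X D C0 n Lam bk) (hD : PM D) (c : ℤ) :
    0 < (bk 0 c).R ∧ 0 < (bk 0 c).mu 0 ∧ (∀ x o, 0 ≤ (bk 0 c).dp 0 x o) ∧
      ∀ x o, 0 ≤ (bk 0 c).W x o := by
  obtain ⟨N, hN⟩ := exists_nat_ge (Lam ^ 2)
  have hOK := hG.OK N c (fun x => [x]) hN (by
    intro x y hxy
    have h1 : x = y := by simpa using hxy
    rw [h1, hD.self]
    have := hG.Lam0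
    positivity)
  obtain ⟨h1, h2, h3⟩ := hG.dat N c
  have hh := hG.h N c
  refine ⟨?_, ?_, fun x o => ?_, fun x o => ?_⟩
  · rw [← h3]; exact hOK.Rpos
  · rw [← h2]; exact hOK.mu 0 (Nat.zero_le _)
  · rw [← h1]; exact (hOK.pm 0 (Nat.zero_le _)).nonneg x o
  · unfold Blk.W
    rw [← h1, hG.h 0 c, ← hh]
    refine sum_nonneg fun i hi => ?_
    exact (hOK.pm i (by have := mem_range.1 hi; omega)).nonneg x o

private theorem Pick_W {D : X → X → ℝ} {C0 : ℝ} {n : ℕ} {Lam : ℝ} {bk : ℕ → ℤ → Blk X}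
    (hG : Geo X D C0 n Lam bk) (N : ℕ) (c : ℤ) (x o : X) :
    (bk N c).W x o = (bk 0 c).W x o := by
  unfold Blk.W
  rw [(hG.dat N c).1, hG.h N c, hG.h 0 c]

private theorem Pick_fine (K : Type) [Fintype K] {D : X → X → ℝ} {C0 : ℝ} {n : ℕ} {Lam : ℝ}
    {bk : ℕ → ℤ → Blk X} (hG : Geo X D C0 n Lam bk) (hD : PM D) (c : ℤ) :
    ∀ᶠ N : ℕ in Filter.atTop, Fine (bk N c) K Lam N := by
  obtain ⟨hR, hmu, hdp, hW⟩ := Pick_sign hG hD c
  have e1 : ∀ p : ℝ, 0 < p → ∀ᶠ N : ℕ in Filter.atTop, er X K Lam N ≤ p := by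
    intro p hp
    unfold er
    exact Pick_small _ p hp
  have e2 : ∀ᶠ N : ℕ in Filter.atTop, ∀ x o : X,
      (bk 0 c).W x o = 0 ∨ (bk 0 c).R * er X K Lam N ≤ (bk 0 c).W x o := by
    rw [Filter.eventually_all]
    intro x
    rw [Filter.eventually_all]
    intro o
    rcases (hW x o).eq_or_lt with h0 | h0
    · exact Filter.Eventually.of_forall fun N => Or.inl h0.symm
    · refine (e1 ((bk 0 c).W x o / (bk 0 c).R) (div_pos h0 hR)).mono fun N hN => Or.inr ?_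
      rw [le_div_iff₀ hR] at hN
      linarith
  have e3 : ∀ᶠ N : ℕ in Filter.atTop, ∀ x o : X,
      (bk 0 c).dp 0 x o = 0 ∨ Lam / (N : ℝ) ≤ (bk 0 c).dp 0 x o / (bk 0 c).mu 0 := by
    rw [Filter.eventually_all]
    intro x
    rw [Filter.eventually_all]
    intro o
    rcases (hdp x o).eq_or_lt with h0 | h0
    · exact Filter.Eventually.of_forall fun N => Or.inl h0.symm
    · exact (Pick_small Lam _ (div_pos h0 hmu)).mono fun N hN => Or.inr hN
  filter_upwards [e1 1 one_pos, e2, e3] with N h1 h2 h3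
  obtain ⟨d1, d2, d3⟩ := hG.dat N c
  refine ⟨h1, fun x o => ?_, fun x o => ?_⟩
  · rw [Pick_W hG N c x o, d3]
    exact h2 x o
  · rw [d1, d2]
    exact h3 x o

end

theorem pickP : PickProp := by
  intro X K _ _ _ _ _ _ D C0 n Lam bk hD hC0 hG
  obtain ⟨δ, hδ, hgap⟩ := Pick_gap D hD
  obtain ⟨c1, hc1⟩ := hG.sr (δ / 4) (by linarith)
  obtain ⟨b, hb⟩ := Pick_bdd D
  have h4 : (0 : ℝ) < (4 : ℝ) ^ (c1 - n : ℤ) := by positivity
  obtain ⟨J, hJ⟩ := pow_unbounded_of_one_lt (b / (4 : ℝ) ^ (c1 - n : ℤ))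
    (by norm_num : (1 : ℝ) < 4)
  have hfin : ∀ᶠ N : ℕ in Filter.atTop, ∀ p ∈ range n ×ˢ range (J + 1),
      Fine (bk N (c1 - n + (p.1 : ℕ) + n * (p.2 : ℕ))) K Lam N := by
    rw [Filter.eventually_all_finset]
    intro p _
    exact Pick_fine K hG hD _
  obtain ⟨N, hN, hN2⟩ := (hfin.and (Filter.eventually_ge_atTop ⌈Lam ^ 2⌉₊)).exists
  have hN3 : Lam ^ 2 ≤ (N : ℝ) := (Nat.le_ceil _).trans (by exact_mod_cast hN2)
  have hn := hG.n1
  refine ⟨N, δ, c1 - n, J, fun x y => ?_, fun r hr => ?_⟩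
  · refine (hb x y).trans ?_
    have h5 : b ≤ (4 : ℝ) ^ (c1 - n : ℤ) * (4 : ℝ) ^ J := by
      rw [div_lt_iff₀ h4] at hJ
      linarith
    refine h5.trans ?_
    rw [← zpow_natCast, ← zpow_add₀ (by norm_num : (4 : ℝ) ≠ 0)]
    refine zpow_le_zpow_right₀ (by norm_num) ?_
    have h6 : (J : ℤ) ≤ n * J := by
      have : (1 : ℤ) ≤ n := by exact_mod_cast hn
      nlinarith [Int.natCast_nonneg J]
    have h7 : (0 : ℤ) ≤ n := Int.natCast_nonneg n
    linarith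
  · have hL : 0 ≤ √(LL X) := Real.sqrt_nonneg _
    have hC : 0 ≤ C0 := by linarith
    refine ⟨hD, hgap, by positivity, ?_, ?_, ?_, ?_, ?_, ?_⟩
    · refine lt_of_le_of_lt (mul_le_mul_of_nonneg_left (hc1 N _ ?_) (by norm_num))
        (by linarith : 2 * (δ / 4) < δ)
      push_cast
      have : (r : ℤ) < n := by exact_mod_cast hr
      linarith
    · intro j hj cl hcl
      refine hG.OK N _ cl hN3 fun x y hxy => ?_
      have h1 := hcl x y hxy
      simp only [hG.h] at h1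
      rw [hG.rr N _ n le_rfl] at h1
      exact h1
    · intro j hj
      exact hN (r, j) (mem_product.2 ⟨mem_range.2 hr, mem_range.2 (by omega)⟩)
    · intro j hj
      have h1 := hG.Mb N (c1 - n + r + n * (j : ℤ))
      show 2000 * (bk N (c1 - n + r + n * (j : ℤ))).Mb ≤ 3 / 4 * (8000 / 3 * C0 * √(LL X))
      linarith
    · intro j hj
      simp only [hG.h]
      rw [hG.rr N _ n le_rfl, hG.rr N _ 0 (Nat.zero_le _)]
      congr 1
      push_cast
      ring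
    · intro j hj
      have h1 := hG.R N (c1 - n + r + n * ((j + 1 : ℕ) : ℤ))
      have h2 : c1 - n + r + n * ((j + 1 : ℕ) : ℤ) - n = c1 - n + r + n * (j : ℤ) := by
        push_cast
        ring
      rw [h2] at h1
      exact h1

end Pool.Agent.AM
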