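import Pool.Agent.Lib.AM.SpecD

set_option linter.all false

/-!
# AM, file D/Rec: composition of the blocks of a chain
-/

namespace Pool.Agent.AM

open Finset Pool.Agent.MP_a4c1f4_lc Pool.Agent.MP_a4c1f4_lc.Dbl Pool.Agent.MP_a4c1f4_lc.Euc

section
variable {X K : Type} [Fintype X] [DecidableEq X] [Nonempty X] [Fintype K] [DecidableEq K]
  [Nonempty K]

private lemma Rec_W (B : Blk X) (hpm : ∀ i ≤ B.h, PM (B.dp i)) (x y : X) : 0 ≤ B.W x y :=
  Finset.sum_nonneg fun i hi => (hpm i (Nat.lt_succ_iff.mp (mem_range.mp hi))).nonneg x y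

private lemma Rec_Pi (sg : K → X) (W : X → X → ℝ) (R : ℝ) (th : X → ℝ)
    (tl : List (K × Option K)) (hW : ∀ x y, 0 ≤ W x y) (hR : 0 ≤ R) (hth : ∀ x, 1 ≤ th x) :
    0 ≤ PiT sg W R th tl := by
  unfold PiT
  apply List.sum_nonneg
  intro a ha
  obtain ⟨t, ht, rfl⟩ := List.mem_map.mp ha
  refine mul_nonneg (by linarith [hth (sg t.1)]) ?_
  rcases t with ⟨z, _ | o⟩
  · show 0 ≤ 2 * R
    linarith
  · show 0 ≤ 3 * W (sg z) (sg o)
    linarith [hW (sg z) (sg o)]

private lemma Rec_r {D : X → X → ℝ} {cl : X → List X} {th : X → ℝ} {Lam r : ℝ} (hpm : PM D)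
    (hTh : Th D cl th Lam r) : 0 ≤ r := by
  have x : X := Classical.arbitrary X
  have h1 := hTh.diam x x rfl
  rw [hpm.self] at h1
  have h2 := hTh.one x
  by_contra h
  push Not at h
  nlinarith

private lemma Rec_diam {D : X → X → ℝ} {cl : X → List X} {th : X → ℝ} {Lam r : ℝ} (hpm : PM D)
    (hTh : Th D cl th Lam r) (x y : X) (hxy : cl x = cl y) : D x y ≤ (Lam + 1) * r :=
  (hTh.diam x y hxy).trans (mul_le_mul_of_nonneg_right (hTh.le x) (Rec_r hpm hTh))

private lemma Rec_nil (sg : K → X) (cl : X → List X) : Inv sg cl [] := by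
  refine ⟨?_, ?_, ?_, ?_⟩
  · intro t ht
    simp at ht
  · simp
  · intro C
    simp [lC]
  · simp

private lemma Rec_all {D : X → X → ℝ} {Lam δ M : ℝ} {N J : ℕ} {b : ℕ → Blk X}
    (hCh : Chain K D Lam N δ M b J) (hLam : 0 ≤ Lam) (h0 : 0 ≤ (b J).rr (b J).h) :
    ∀ k j, j + k = J → (b j).OK Lam N D (fun x => [x]) := by
  have aux : ∀ j ≤ J, 0 ≤ (b j).rr (b j).h → (b j).OK Lam N D (fun x => [x]) := by
    intro j hj hr
    refine hCh.OK j hj _ fun x y hxy => ?_
    have e : x = y := by simpa using hxy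
    rw [e, hCh.pm.self]
    positivity
  intro k
  induction k with
  | zero =>
    intro j hj
    have e : j = J := by omega
    subst e
    exact aux j le_rfl h0
  | succ k ih =>
    intro j hj
    have h1 := ih (j + 1) (by omega)
    refine aux j (by omega) ?_
    rw [hCh.link j (by omega)]
    exact (h1.rr 0 (Nat.zero_le _)).le

end

theorem recP (hC : BlockCostProp) (hP : BlockPotProp) (hI : BlockInvProp) (hL : LawProp)
    (hR : RelProp) : RecProp := by
  intro X K _ _ _ _ _ _ sg D Lam N δ M b J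
  induction J with
  | zero =>
    intro hCh hLam cl th hTh
    have hOK : (b 0).OK Lam N D cl := hCh.OK 0 le_rfl cl (Rec_diam hCh.pm hTh)
    obtain ⟨Ω, fΩ, w, Gf, qf, hw0, hw1, hsupp, hlaw⟩ := hL X K (b 0) Lam N D cl hOK
    refine ⟨Ω, fΩ, w, fun ω => (b 0).nv sg Lam N cl (Gf ω) (qf ω), hw0, hw1,
      fun tl htl => ⟨fun ω => ?_, ?_⟩⟩
    · obtain ⟨_, _, _, h4, _⟩ :=
        hI X K (b 0) sg Lam N D cl th tl (Gf ω) (qf ω) hOK htl (hsupp ω)
      obtain ⟨_, _, _, r4, _⟩ := hR X K (b 0) sg Lam N D cl (Gf ω) (qf ω) hCh.pm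
      rw [r4]
      exact h4
    · have hcost := hC X K (b 0) sg Lam N D cl th tl hOK (hCh.fine 0 le_rfl) hTh htl
      rw [hlaw] at hcost
      have hPi : 0 ≤ PiT sg (b 0).W (b 0).R th tl :=
        Rec_Pi sg _ _ th tl (Rec_W _ hOK.pm) hOK.Rpos.le hTh.one
      have hMb := hCh.Mb 0 le_rfl
      have h1 : ∑ ω, w ω * stp (fun x l => D (sg x)
            (sg ((b 0).nv sg Lam N cl (Gf ω) (qf ω) x l))) (tl.map Prod.fst) ≤
          ∑ ω, w ω * (b 0).bcost sg Lam N cl (Gf ω) (qf ω) D (tl.map Prod.fst) := by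
        refine Finset.sum_le_sum fun ω _ => mul_le_mul_of_nonneg_left ?_ (hw0 ω)
        obtain ⟨_, _, _, _, h5⟩ :=
          hI X K (b 0) sg Lam N D cl th tl (Gf ω) (qf ω) hOK htl (hsupp ω)
        obtain ⟨_, _, _, _, r5⟩ := hR X K (b 0) sg Lam N D cl (Gf ω) (qf ω) hCh.pm
        exact r5 δ _ hCh.gap hCh.last h5
      refine h1.trans (hcost.trans ?_)
      rw [range_zero, sum_empty, mul_zero, add_zero]
      have a1 := mul_le_mul_of_nonneg_right hMb hPi
      have a2 := mul_nonneg hCh.M0 hPi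
      nlinarith
  | succ J ih =>
    intro hCh hLam cl th hTh
    have hOK : (b (J + 1)).OK Lam N D cl := hCh.OK (J + 1) le_rfl cl (Rec_diam hCh.pm hTh)
    have hCh' : Chain K D Lam N δ M b J :=
      ⟨hCh.pm, hCh.gap, hCh.M0, hCh.last, fun j hj => hCh.OK j (by omega),
        fun j hj => hCh.fine j (by omega), fun j hj => hCh.Mb j (by omega),
        fun j hj => hCh.link j (by omega), fun j hj => hCh.R j (by omega)⟩
    obtain ⟨Ω, fΩ, w, Gf, qf, hw0, hw1, hsupp, hlaw⟩ := hL X K (b (J + 1)) Lam N D cl hOK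
    have hlink := hCh.link J (Nat.lt_succ_self J)
    have hall : ∀ j ≤ J, (b j).OK Lam N D (fun x => [x]) := fun j hj =>
      Rec_all hCh hLam (Rec_r hCh.pm hTh) (J + 1 - j) j (by omega)
    have hTh' : ∀ ω, Th D ((b (J + 1)).ncl Lam N cl (Gf ω)) ((b (J + 1)).nth Lam N (Gf ω)) Lam
        ((b J).rr (b J).h) := by
      intro ω
      obtain ⟨_, h2, _⟩ :=
        hI X K (b (J + 1)) sg Lam N D cl th [] (Gf ω) (qf ω) hOK (Rec_nil sg cl) (hsupp ω)
      rw [hlink]
      exact h2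
    have key := fun ω => ih hCh' hLam _ _ (hTh' ω)
    choose Ω' fΩ' w' A' hw0' hw1' hmain using key
    letI : ∀ ω, Fintype (Ω' ω) := fΩ'
    refine ⟨(ω : Ω) × Ω' ω, inferInstance, fun p => w p.1 * w' p.1 p.2,
      fun p x l => A' p.1 p.2 ((b (J + 1)).np sg Lam N cl (Gf p.1) (qf p.1) x l)
        ((b (J + 1)).npl sg Lam N cl (Gf p.1) (qf p.1) l),
      fun p => mul_nonneg (hw0 _) (hw0' _ _), ?_, fun tl htl => ⟨fun p => ?_, ?_⟩⟩
    · rw [Fintype.sum_sigma]
      simp only [← Finset.mul_sum, hw1', mul_one]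
      exact hw1
    · obtain ⟨h1, _, h3, _, _⟩ :=
        hI X K (b (J + 1)) sg Lam N D cl th tl (Gf p.1) (qf p.1) hOK htl (hsupp p.1)
      obtain ⟨r1, _⟩ := hR X K (b (J + 1)) sg Lam N D cl (Gf p.1) (qf p.1) hCh.pm
      have h6 := (hmain p.1 _ h1).1 p.2
      rw [h3, ← r1] at h6
      exact h6
    · have e1 : ∀ ω, ∑ ω' : Ω' ω, w' ω ω' * stp (fun x l => D (sg x)
            (sg (A' ω ω' ((b (J + 1)).np sg Lam N cl (Gf ω) (qf ω) x l)
              ((b (J + 1)).npl sg Lam N cl (Gf ω) (qf ω) l)))) (tl.map Prod.fst) ≤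
          (b (J + 1)).bcost sg Lam N cl (Gf ω) (qf ω) D (tl.map Prod.fst) +
            M * (PiT sg (b J).W (b J).R ((b (J + 1)).nth Lam N (Gf ω))
              ((b (J + 1)).ntl sg Lam N cl (Gf ω) (qf ω) tl) +
              9 * ∑ j ∈ range J, gs sg D ((Lam + 1) * (b j).rr (b j).h) (b j).W tl) := by
        intro ω
        obtain ⟨h1, _, h3, _, _⟩ :=
          hI X K (b (J + 1)) sg Lam N D cl th tl (Gf ω) (qf ω) hOK htl (hsupp ω)
        obtain ⟨_, r2, r3, _, _⟩ := hR X K (b (J + 1)) sg Lam N D cl (Gf ω) (qf ω) hCh.pm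
        have hm := (hmain ω _ h1).2
        rw [h3] at hm
        have s1 := Finset.sum_le_sum fun (ω' : Ω' ω) (_ : ω' ∈ univ) =>
          mul_le_mul_of_nonneg_left (r2 (A' ω ω') (tl.map Prod.fst)) (hw0' ω ω')
        have s2 : ∑ ω' : Ω' ω, w' ω ω' *
            ((b (J + 1)).bcost sg Lam N cl (Gf ω) (qf ω) D (tl.map Prod.fst) +
              stp (fun x l => D (sg x) (sg (A' ω ω' x l)))
                ((b (J + 1)).npl sg Lam N cl (Gf ω) (qf ω) (tl.map Prod.fst))) =
            (b (J + 1)).bcost sg Lam N cl (Gf ω) (qf ω) D (tl.map Prod.fst) +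
              ∑ ω' : Ω' ω, w' ω ω' * stp (fun x l => D (sg x) (sg (A' ω ω' x l)))
                ((b (J + 1)).npl sg Lam N cl (Gf ω) (qf ω) (tl.map Prod.fst)) := by
          simp only [mul_add, Finset.sum_add_distrib]
          rw [← Finset.sum_mul, hw1', one_mul]
        refine s1.trans (s2.le.trans (add_le_add le_rfl (hm.trans
          (mul_le_mul_of_nonneg_left (add_le_add le_rfl (mul_le_mul_of_nonneg_left
            (Finset.sum_le_sum fun j hj => ?_) (by norm_num))) hCh.M0))))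
        exact r3 _ _ tl (Rec_W _ (hall j (mem_range.mp hj).le).pm)
      have hcost := hC X K (b (J + 1)) sg Lam N D cl th tl hOK (hCh.fine _ le_rfl) hTh htl
      have hpot := hP X K (b (J + 1)) sg Lam N D cl th tl (b J).W (b J).R hOK
        (hCh.fine _ le_rfl) hTh htl (Rec_W _ (hall J le_rfl).pm) (hall J le_rfl).Rpos.le
        (hCh.R J (Nat.lt_succ_self J))
      rw [hlaw] at hcost hpot
      rw [← hlink] at hpot
      change _ ≤ _ + 9 * gs sg D ((Lam + 1) * (b J).rr (b J).h) (b J).W tl at hpot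
      have hPi : 0 ≤ PiT sg (b (J + 1)).W (b (J + 1)).R th tl :=
        Rec_Pi sg _ _ th tl (Rec_W _ hOK.pm) hOK.Rpos.le hTh.one
      have hMb := hCh.Mb (J + 1) le_rfl
      rw [Fintype.sum_sigma, sum_range_succ]
      have s3 : ∀ ω, ∑ ω' : Ω' ω, w ω * w' ω ω' * stp (fun x l => D (sg x)
            (sg (A' ω ω' ((b (J + 1)).np sg Lam N cl (Gf ω) (qf ω) x l)
              ((b (J + 1)).npl sg Lam N cl (Gf ω) (qf ω) l)))) (tl.map Prod.fst) ≤
          w ω * (b (J + 1)).bcost sg Lam N cl (Gf ω) (qf ω) D (tl.map Prod.fst) +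
            (M * (w ω * PiT sg (b J).W (b J).R ((b (J + 1)).nth Lam N (Gf ω))
              ((b (J + 1)).ntl sg Lam N cl (Gf ω) (qf ω) tl)) +
              w ω * (M * (9 * ∑ j ∈ range J,
                gs sg D ((Lam + 1) * (b j).rr (b j).h) (b j).W tl))) := by
        intro ω
        have s4 := mul_le_mul_of_nonneg_left (e1 ω) (hw0 ω)
        rw [Finset.mul_sum] at s4
        simp only [← mul_assoc] at s4 ⊢
        refine s4.trans (le_of_eq ?_)
        ring
      refine (Finset.sum_le_sum fun ω _ => s3 ω).trans ?_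
      simp only [Finset.sum_add_distrib]
      rw [← Finset.mul_sum, ← Finset.sum_mul, hw1, one_mul]
      have a1 := mul_le_mul_of_nonneg_right hMb hPi
      have a3 := mul_le_mul_of_nonneg_left hpot hCh.M0
      nlinarith
end Pool.Agent.AM
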