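import Pool.Agent.Lib.AM.SpecD

set_option linter.all false

/-!
# AM, D/Rel: relabelling lemmas
-/

namespace Pool.Agent.AM

open Finset Pool.Agent.MP_a4c1f4_lc Pool.Agent.MP_a4c1f4_lc.Dbl Pool.Agent.MP_a4c1f4_lc.Euc

section
variable {X K : Type} [Fintype X] [DecidableEq X] [Nonempty X] [Fintype K] [DecidableEq K]
  [Nonempty K] (B : Blk X) (sg : K → X) (Lam : ℝ) (N : ℕ) (D : X → X → ℝ) (cl : X → List X)
  (G : ℕ → X → ℕ) (q : ℕ → Equiv.Perm X)

private theorem Rel_chs (A : K → List K → K) (l : List K) :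
    chs (fun x l => A (B.np sg Lam N cl G q x l) (B.npl sg Lam N cl G q l)) l =
      chs A (B.npl sg Lam N cl G q l) := by
  induction l with
  | nil => rfl
  | cons x l ih =>
    show A (B.np sg Lam N cl G q x l) (B.npl sg Lam N cl G q l) ::
      chs (fun x l => A (B.np sg Lam N cl G q x l) (B.npl sg Lam N cl G q l)) l =
      A (B.np sg Lam N cl G q x l) (B.npl sg Lam N cl G q l) ::
        chs A (B.npl sg Lam N cl G q l)
    rw [ih]

private theorem Rel_cost (hD : PM D) (A : K → List K → K) (l : List K) :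
    stp (fun x l => D (sg x)
        (sg (A (B.np sg Lam N cl G q x l) (B.npl sg Lam N cl G q l)))) l ≤
      B.bcost sg Lam N cl G q D l +
        stp (fun x l => D (sg x) (sg (A x l))) (B.npl sg Lam N cl G q l) := by
  induction l with
  | nil =>
    show (0 : ℝ) ≤ 0 + 0
    norm_num
  | cons x l ih =>
    have h1 : stp (fun x l => D (sg x)
        (sg (A (B.np sg Lam N cl G q x l) (B.npl sg Lam N cl G q l)))) (x :: l) =
        stp (fun x l => D (sg x)
          (sg (A (B.np sg Lam N cl G q x l) (B.npl sg Lam N cl G q l)))) l +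
        D (sg x) (sg (A (B.np sg Lam N cl G q x l) (B.npl sg Lam N cl G q l))) := rfl
    have h2 : B.bcost sg Lam N cl G q D (x :: l) =
        B.bcost sg Lam N cl G q D l + D (sg x) (sg (B.np sg Lam N cl G q x l)) := rfl
    have h3 : stp (fun x l => D (sg x) (sg (A x l))) (B.npl sg Lam N cl G q (x :: l)) =
        stp (fun x l => D (sg x) (sg (A x l))) (B.npl sg Lam N cl G q l) +
        D (sg (B.np sg Lam N cl G q x l))
          (sg (A (B.np sg Lam N cl G q x l) (B.npl sg Lam N cl G q l))) := rfl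
    have h4 := hD.tri (sg x) (sg (B.np sg Lam N cl G q x l))
      (sg (A (B.np sg Lam N cl G q x l) (B.npl sg Lam N cl G q l)))
    rw [h1, h2, h3]
    linarith

private theorem Rel_gs1 (ρ : ℝ) (W : X → X → ℝ) (hW : ∀ x y, 0 ≤ W x y) (t : K × Option K)
    (l : List K) :
    (match (B.nt sg Lam N cl G q t l).2 with
      | none => (0 : ℝ)
      | some o => ind (D (sg (B.nt sg Lam N cl G q t l).1) (sg o) ≤ ρ) *
          W (sg (B.nt sg Lam N cl G q t l).1) (sg o)) ≤
    (match t.2 with
      | none => (0 : ℝ)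
      | some o => ind (D (sg t.1) (sg o) ≤ ρ) * W (sg t.1) (sg o)) := by
  classical
  obtain ⟨z, p⟩ := t
  cases p with
  | none =>
    have h1 : (B.nt sg Lam N cl G q (z, none) l).2 = none := rfl
    rw [h1]
  | some o =>
    by_cases hc : B.np sg Lam N cl G q z l = z ∧
        B.ncl Lam N cl G (sg z) = B.ncl Lam N cl G (sg o)
    · have h1 : (B.nt sg Lam N cl G q (z, some o) l).2 = some o := by
        simp only [Blk.nt]
        exact if_pos hc
      have h2 : (B.nt sg Lam N cl G q (z, some o) l).1 = z := hc.1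
      rw [h1, h2]
    · have h1 : (B.nt sg Lam N cl G q (z, some o) l).2 = none := by
        simp only [Blk.nt]
        exact if_neg hc
      rw [h1]
      exact mul_nonneg (ind_nonneg _) (hW _ _)

private theorem Rel_gs (ρ : ℝ) (W : X → X → ℝ) (hW : ∀ x y, 0 ≤ W x y)
    (tl : List (K × Option K)) :
    gs sg D ρ W (B.ntl sg Lam N cl G q tl) ≤ gs sg D ρ W tl := by
  induction tl with
  | nil => exact le_refl _
  | cons t tl ih =>
    have h1 : gs sg D ρ W (B.ntl sg Lam N cl G q (t :: tl)) =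
        (match (B.nt sg Lam N cl G q t (tl.map Prod.fst)).2 with
          | none => (0 : ℝ)
          | some o => ind (D (sg (B.nt sg Lam N cl G q t (tl.map Prod.fst)).1) (sg o) ≤ ρ) *
              W (sg (B.nt sg Lam N cl G q t (tl.map Prod.fst)).1) (sg o)) +
        gs sg D ρ W (B.ntl sg Lam N cl G q tl) := rfl
    have h2 : gs sg D ρ W (t :: tl) =
        (match t.2 with
          | none => (0 : ℝ)
          | some o => ind (D (sg t.1) (sg o) ≤ ρ) * W (sg t.1) (sg o)) +
        gs sg D ρ W tl := rfl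
    rw [h1, h2]
    exact add_le_add (Rel_gs1 B sg Lam N D cl G q ρ W hW t (tl.map Prod.fst)) ih

private theorem Rel_nvl (l : List K) :
    chs (B.nv sg Lam N cl G q) l = B.nvl sg Lam N cl G q l := by
  induction l with
  | nil => rfl
  | cons x l ih =>
    show B.nv sg Lam N cl G q x l :: chs (B.nv sg Lam N cl G q) l =
      B.nv sg Lam N cl G q x l :: B.nvl sg Lam N cl G q l
    rw [ih]

private theorem Rel_step (hD : PM D) (δ : ℝ) (hgap : ∀ x y, D x y = 0 ∨ δ ≤ D x y)
    (hsr : 2 * B.sr 0 < δ) (z : K) (l : List K)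
    (h : D (sg z) (sg (B.nv sg Lam N cl G q z l)) ≤
      D (sg z) (sg (B.np sg Lam N cl G q z l)) + 2 * B.sr 0) :
    D (sg z) (sg (B.nv sg Lam N cl G q z l)) ≤ D (sg z) (sg (B.np sg Lam N cl G q z l)) := by
  classical
  by_cases hc : B.ncl Lam N cl G (sg (B.nv sg Lam N cl G q z l)) = B.ncl Lam N cl G (sg z)
  · have h1 : B.np sg Lam N cl G q z l = z := if_pos hc
    rw [h1, hD.self] at h ⊢
    rcases hgap (sg z) (sg (B.nv sg Lam N cl G q z l)) with h2 | h2
    · exact h2.le
    · linarith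
  · have h1 : B.np sg Lam N cl G q z l = B.nv sg Lam N cl G q z l := if_neg hc
    rw [h1]

private theorem Rel_last (hD : PM D) (δ : ℝ) (hgap : ∀ x y, D x y = 0 ∨ δ ≤ D x y)
    (hsr : 2 * B.sr 0 < δ) (l0 : List K) (h : ∀ (z : K) (l : List K),
      (∃ m : List K, m ++ z :: l = l0) → D (sg z) (sg (B.nv sg Lam N cl G q z l)) ≤
      D (sg z) (sg (B.np sg Lam N cl G q z l)) + 2 * B.sr 0) :
    stp (fun x l => D (sg x) (sg (B.nv sg Lam N cl G q x l))) l0 ≤
      B.bcost sg Lam N cl G q D l0 := by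
  induction l0 with
  | nil => exact le_refl _
  | cons x l ih =>
    have h1 : stp (fun x l => D (sg x) (sg (B.nv sg Lam N cl G q x l))) (x :: l) =
        stp (fun x l => D (sg x) (sg (B.nv sg Lam N cl G q x l))) l +
        D (sg x) (sg (B.nv sg Lam N cl G q x l)) := rfl
    have h2 : B.bcost sg Lam N cl G q D (x :: l) =
        B.bcost sg Lam N cl G q D l + D (sg x) (sg (B.np sg Lam N cl G q x l)) := rfl
    rw [h1, h2]
    refine add_le_add (ih fun z l' hz => ?_)
      (Rel_step B sg Lam N D cl G q hD δ hgap hsr x l (h x l ⟨[], rfl⟩))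
    obtain ⟨m, hm⟩ := hz
    exact h z l' ⟨x :: m, by rw [List.cons_append, hm]⟩

end

theorem relP : RelProp := by
  intro X K _ _ _ _ _ _ B sg Lam N D cl G q hD
  exact ⟨fun A l => Rel_chs B sg Lam N cl G q A l,
    fun A l => Rel_cost B sg Lam N D cl G q hD A l,
    fun ρ W tl hW => Rel_gs B sg Lam N D cl G q ρ W hW tl,
    fun l => Rel_nvl B sg Lam N cl G q l,
    fun δ l0 hgap hsr h => Rel_last B sg Lam N D cl G q hD δ hgap hsr l0 h⟩

end Pool.Agent.AM
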