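import Pool.Agent.Lib.AM.SpecD
import Pool.Agent.Lib.MP_a4c1f4_lc.Euc.AsmC

set_option linter.all false

/-!
# AM: (D5) the result for all metrics, from `GeomProp` and `CmpProp`
-/

namespace Pool.Agent.AM

open Finset Pool.Agent.MP_a4c1f4_lc Pool.Agent.MP_a4c1f4_lc.Dbl Pool.Agent.MP_a4c1f4_lc.Euc

private theorem Top_empty {S T : Type} [Fintype T] [IsEmpty T] (D : S → S → ℝ) (σ : T → S)
    (c : ℝ) : Cmp D σ c := by
  refine ⟨Unit, inferInstance, fun _ => 1, fun _ x _ => x, fun _ => zero_le_one, by simp, ?_, ?_⟩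
  · intro ω l _
    cases l with
    | nil => simp [chs]
    | cons x l => exact isEmptyElim x
  · intro l τ _
    cases l with
    | nil => simp [stp, acost]
    | cons x l => exact isEmptyElim x

private theorem Top_num {u A : ℝ} (hu : 0 ≤ u) (hA : 0 ≤ A) :
    A * √(u + 3) * (u + 3) * (1 + Real.log (u + 3)) ^ 2 ≤
      54 * A * √(1 + u) * (1 + u) * (1 + Real.log (1 + u)) ^ 2 := by
  have h1 : u + 3 ≤ 3 * (1 + u) := by linarith
  have h2 : √(u + 3) ≤ 2 * √(1 + u) := by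
    rw [Real.sqrt_le_iff]
    refine ⟨by positivity, ?_⟩
    rw [mul_pow, Real.sq_sqrt (by linarith)]
    linarith
  have hl0 : 0 ≤ Real.log (1 + u) := Real.log_nonneg (by linarith)
  have hl1 : 0 ≤ Real.log (u + 3) := Real.log_nonneg (by linarith)
  have h3 : 1 + Real.log (u + 3) ≤ 3 * (1 + Real.log (1 + u)) := by
    have e1 : Real.log (u + 3) ≤ Real.log (3 * (1 + u)) := Real.log_le_log (by linarith) h1
    have e2 : Real.log (3 * (1 + u)) = Real.log 3 + Real.log (1 + u) :=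
      Real.log_mul (by norm_num) (by linarith)
    have e3 : Real.log 3 ≤ 3 - 1 := Real.log_le_sub_one_of_pos (by norm_num)
    rw [e2] at e1
    linarith
  have h4 : (1 + Real.log (u + 3)) ^ 2 ≤ 9 * (1 + Real.log (1 + u)) ^ 2 := by
    calc (1 + Real.log (u + 3)) ^ 2 ≤ (3 * (1 + Real.log (1 + u))) ^ 2 :=
          pow_le_pow_left₀ (by linarith) h3 2
      _ = 9 * (1 + Real.log (1 + u)) ^ 2 := by ring
  calc A * √(u + 3) * (u + 3) * (1 + Real.log (u + 3)) ^ 2
      ≤ A * (2 * √(1 + u)) * (3 * (1 + u)) * (9 * (1 + Real.log (1 + u)) ^ 2) := by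
        gcongr
    _ = 54 * A * √(1 + u) * (1 + u) * (1 + Real.log (1 + u)) ^ 2 := by ring

theorem topP (hG : GeomProp) (hC : CmpProp) : AllProp := by
  obtain ⟨C0, hC0, hG⟩ := hG
  refine ⟨54 * (24000 * C0 ^ 2), ?_, ?_⟩
  · have : (1 : ℝ) ≤ C0 ^ 2 := one_le_pow₀ hC0
    linarith
  intro m hm T _ _ σ D hD
  rcases isEmpty_or_nonempty T with hT | hT
  · exact Top_empty D σ _
  haveI : Nonempty (Fin m) := ⟨⟨0, hm⟩⟩
  obtain ⟨n, Lam, bk, hg⟩ := hG (Fin m) D hD
  have h := hC (Fin m) T σ D C0 n Lam bk hD hC0 hg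
  refine cmp_mono hD ?_ h
  have hm1 : (1 : ℝ) ≤ (m : ℝ) := by exact_mod_cast hm
  have hu : 0 ≤ Real.log (m : ℝ) := Real.log_nonneg hm1
  have hL : LL (Fin m) = Real.log (m : ℝ) + 3 := by simp [LL]
  rw [hL]
  exact Top_num hu (by positivity)

end Pool.Agent.AM
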